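import Mathlib

set_option autoImplicit false

namespace Pool.Agent.Helper535.SG

open Set Topology

/-- The three vertices `(0,0), (1,0), (0,1)`. -/
def v : Fin 3 → ℝ × ℝ := ![(0, 0), (1, 0), (0, 1)]

/-- The three halving maps of the gasket. -/
noncomputable def S (i : Fin 3) (z : ℝ × ℝ) : ℝ × ℝ := ((z.1 + (v i).1) / 2, (z.2 + (v i).2) / 2)

/-- The full triangle. -/
def T : Set (ℝ × ℝ) := {z | 0 ≤ z.1 ∧ 0 ≤ z.2 ∧ z.1 + z.2 ≤ 1}

/-- The boundary of the triangle. -/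
def B : Set (ℝ × ℝ) := {z | z ∈ T ∧ (z.1 = 0 ∨ z.2 = 0 ∨ z.1 + z.2 = 1)}

/-- The union of the boundaries of the triangles of level `n`. -/
def E : ℕ → Set (ℝ × ℝ)
  | 0 => B
  | n + 1 => ⋃ i : Fin 3, S i '' E n

/-- The Sierpinski gasket. -/
def G : Set (ℝ × ℝ) := closure (⋃ n, E n)

/-- Compositions of the maps `S i`. -/
noncomputable def W : List (Fin 3) → ℝ × ℝ → ℝ × ℝ
  | [] => id
  | i :: w => S i ∘ W w

/-- The junction points of level at most `n`. -/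
def J : ℕ → Set (ℝ × ℝ)
  | 0 => ∅
  | n + 1 => {(1/2, 0), (0, 1/2), (1/2, 1/2)} ∪ ⋃ i : Fin 3, S i '' J n

/-- Finite decompositions into small closed connected pieces meeting in finite sets. -/
def CP (Y : Type) [MetricSpace Y] : Prop :=
  ∀ ε : ℝ, 0 < ε → ∃ F : Set (Set Y), F.Finite ∧ ⋃₀ F = univ ∧
    (∀ C ∈ F, IsClosed C ∧ IsPreconnected C ∧ ∀ a ∈ C, ∀ b ∈ C, dist a b < ε) ∧
    ∃ K : Set Y, K.Finite ∧ ∀ C ∈ F, ∀ C' ∈ F, C ≠ C' → C ∩ C' ⊆ K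

end Pool.Agent.Helper535.SG
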