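import Pool.Agent.Helper535.SG.Defs

set_option autoImplicit false

namespace Pool.Agent.Helper535.SG
open Set Topology


/-- the gauge -/
noncomputable def gN (z : Circle) : ℝ :=
  max (max (-3 * (z : ℂ).re) (-3 * (z : ℂ).im)) (3 * ((z : ℂ).re + (z : ℂ).im))

theorem circle_sq (z : Circle) : (z : ℂ).re ^ 2 + (z : ℂ).im ^ 2 = 1 := by
  have h := Circle.normSq_coe z
  rw [Complex.normSq_apply] at h
  nlinarith [h]

theorem gN_pos (z : Circle) : 0 < gN z := by
  by_contra hN
  rw [not_lt] at hN
  have h1 : -3 * (z : ℂ).re ≤ gN z := le_trans (le_max_left _ _) (le_max_left _ _)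
  have h2 : -3 * (z : ℂ).im ≤ gN z := le_trans (le_max_right _ _) (le_max_left _ _)
  have h3 : 3 * ((z : ℂ).re + (z : ℂ).im) ≤ gN z := le_max_right _ _
  have ha : (z : ℂ).re = 0 := by linarith
  have hb : (z : ℂ).im = 0 := by linarith
  have h := circle_sq z
  rw [ha, hb] at h
  norm_num at h

theorem gN_cont : Continuous gN := by
  unfold gN
  have h1 : Continuous (fun z : Circle => (z : ℂ).re) :=
    Complex.continuous_re.comp continuous_subtype_val
  have h2 : Continuous (fun z : Circle => (z : ℂ).im) :=
    Complex.continuous_im.comp continuous_subtype_val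
  exact ((continuous_const.mul h1).max (continuous_const.mul h2)).max
    (continuous_const.mul (h1.add h2))

theorem circle_B : ∃ g : Circle → ℝ × ℝ, Continuous g ∧ Function.Injective g ∧
    Set.range g ⊆ B := by
  have h1 : Continuous (fun z : Circle => (z : ℂ).re) :=
    Complex.continuous_re.comp continuous_subtype_val
  have h2 : Continuous (fun z : Circle => (z : ℂ).im) :=
    Complex.continuous_im.comp continuous_subtype_val
  refine ⟨fun z => (1 / 3 + (z : ℂ).re / gN z, 1 / 3 + (z : ℂ).im / gN z), ?_, ?_, ?_⟩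
  · exact (continuous_const.add (h1.div gN_cont (fun z => (gN_pos z).ne'))).prodMk
      (continuous_const.add (h2.div gN_cont (fun z => (gN_pos z).ne')))
  · intro z w hzw
    have e1 : (z : ℂ).re / gN z = (w : ℂ).re / gN w := by
      have := congrArg Prod.fst hzw
      simp only at this
      linarith
    have e2 : (z : ℂ).im / gN z = (w : ℂ).im / gN w := by
      have := congrArg Prod.snd hzw
      simp only at this
      linarith
    have hz := gN_pos z
    have hw := gN_pos w
    have k1 := (div_eq_div_iff hz.ne' hw.ne').1 e1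
    have k2 := (div_eq_div_iff hz.ne' hw.ne').1 e2
    have cz := circle_sq z
    have cw := circle_sq w
    have hsq : gN w ^ 2 = gN z ^ 2 := by
      have a1 : ((z : ℂ).re * gN w) ^ 2 + ((z : ℂ).im * gN w) ^ 2 =
          ((w : ℂ).re * gN z) ^ 2 + ((w : ℂ).im * gN z) ^ 2 := by rw [k1, k2]
      have a2 : ((z : ℂ).re ^ 2 + (z : ℂ).im ^ 2) * gN w ^ 2 =
          ((w : ℂ).re ^ 2 + (w : ℂ).im ^ 2) * gN z ^ 2 := by linarith
      rw [cz, cw, one_mul, one_mul] at a2
      exact a2
    have hN : gN w = gN z := by
      rcases sq_eq_sq_iff_eq_or_eq_neg.1 hsq with h | h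
      · exact h
      · linarith
    rw [hN] at k1 k2
    have r1 := mul_right_cancel₀ hz.ne' k1
    have r2 := mul_right_cancel₀ hz.ne' k2
    exact Circle.ext (Complex.ext r1 r2)
  · rintro _ ⟨z, rfl⟩
    have hN := gN_pos z
    have b1 : -3 * (z : ℂ).re ≤ gN z := le_trans (le_max_left _ _) (le_max_left _ _)
    have b2 : -3 * (z : ℂ).im ≤ gN z := le_trans (le_max_right _ _) (le_max_left _ _)
    have b3 : 3 * ((z : ℂ).re + (z : ℂ).im) ≤ gN z := le_max_right _ _
    have key : gN z = -3 * (z : ℂ).re ∨ gN z = -3 * (z : ℂ).im ∨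
        gN z = 3 * ((z : ℂ).re + (z : ℂ).im) := by
      unfold gN
      rcases max_choice (max (-3 * (z : ℂ).re) (-3 * (z : ℂ).im))
        (3 * ((z : ℂ).re + (z : ℂ).im)) with h | h
      · rcases max_choice (-3 * (z : ℂ).re) (-3 * (z : ℂ).im) with h' | h'
        · left; rw [h, h']
        · right; left; rw [h, h']
      · right; right; exact h
    have d1 : (z : ℂ).re = (z : ℂ).re / gN z * gN z := by field_simp
    have d2 : (z : ℂ).im = (z : ℂ).im / gN z * gN z := by field_simp
    set x := (z : ℂ).re / gN z with hx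
    set y := (z : ℂ).im / gN z with hy
    have c1 : 0 ≤ 1 / 3 + x := by
      by_contra hc
      rw [not_le] at hc
      have : (1 / 3 + x) * gN z < 0 := mul_neg_of_neg_of_pos hc hN
      nlinarith
    have c2 : 0 ≤ 1 / 3 + y := by
      by_contra hc
      rw [not_le] at hc
      have : (1 / 3 + y) * gN z < 0 := mul_neg_of_neg_of_pos hc hN
      nlinarith
    have c3 : (1 / 3 + x) + (1 / 3 + y) ≤ 1 := by
      by_contra hc
      rw [not_le] at hc
      have : 0 < (1 / 3 + x + (1 / 3 + y) - 1) * gN z := mul_pos (by linarith) hN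
      nlinarith
    refine ⟨⟨c1, c2, c3⟩, ?_⟩
    rcases key with h | h | h
    · left
      have : (1 / 3 + x) * gN z = 0 := by nlinarith
      rcases mul_eq_zero.1 this with h' | h'
      · exact h'
      · exact absurd h' hN.ne'
    · right; left
      have : (1 / 3 + y) * gN z = 0 := by nlinarith
      rcases mul_eq_zero.1 this with h' | h'
      · exact h'
      · exact absurd h' hN.ne'
    · right; right
      have : (1 / 3 + x + (1 / 3 + y) - 1) * gN z = 0 := by nlinarith
      rcases mul_eq_zero.1 this with h' | h'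
      · show 1 / 3 + x + (1 / 3 + y) = 1
        linarith
      · exact absurd h' hN.ne'

end Pool.Agent.Helper535.SG
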