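import Pool.Agent.Helper535.SG.Defs

set_option autoImplicit false

namespace Pool.Agent.Helper535.SG
open Set Topology


theorem cp_fam (Y : Type) [MetricSpace Y] (h : CP Y) (𝒜 : Set (Set Y))
    (h𝒜 : ∀ A ∈ 𝒜, IsPreconnected A ∧ A.Nontrivial) (hd : 𝒜.PairwiseDisjoint id) :
    𝒜.Countable := by
  have hpos : ∀ n : ℕ, (0:ℝ) < 1 / ((n:ℝ) + 1) := fun n => Nat.one_div_pos_of_nat
  choose F hFin hcov hC K hK hint using fun n : ℕ => h (1 / ((n:ℝ) + 1)) (hpos n)
  have hLc : (⋃ n, K n).Countable := countable_iUnion fun n => (hK n).countable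
  have key : ∀ A : Set Y, IsPreconnected A → A.Nontrivial → (A ∩ ⋃ n, K n).Nonempty := by
    intro A hA hA2
    by_contra hcon
    obtain ⟨a, ha, b, hb, hab⟩ := hA2
    obtain ⟨n, hn⟩ := exists_nat_one_div_lt (dist_pos.2 hab)
    have hmem : ∀ x : Y, ∃ C ∈ F n, x ∈ C := fun x => by
      have hx : x ∈ ⋃₀ F n := by rw [hcov n]; trivial
      simpa using hx
    obtain ⟨C, hCF, haC⟩ := hmem a
    have hbC : b ∈ C := by
      by_contra hbC
      have hDcl : IsClosed (⋃ C' ∈ F n \ {C}, C') :=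
        ((hFin n).subset diff_subset).isClosed_biUnion fun C' hC' => (hC n C' hC'.1).1
      have hinD : ∀ x : Y, x ∉ C → x ∈ ⋃ C' ∈ F n \ {C}, C' := by
        intro x hx
        obtain ⟨C', hC', hxC'⟩ := hmem x
        refine mem_biUnion (x := C') ⟨hC', ?_⟩ hxC'
        intro he
        rw [mem_singleton_iff] at he
        exact hx (he ▸ hxC')
      have := (isPreconnected_closed_iff.1 hA) C _ (hC n C hCF).1 hDcl
        (fun x _ => by
          by_cases hx : x ∈ C
          · exact Or.inl hx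
          · exact Or.inr (hinD x hx)) ⟨a, ha, haC⟩ ⟨b, hb, hinD b hbC⟩
      obtain ⟨x, hxA, hxC, hxD⟩ := this
      obtain ⟨C', hC', hxC'⟩ := mem_iUnion₂.1 hxD
      refine hcon ⟨x, hxA, mem_iUnion.2 ⟨n, hint n C hCF C' hC'.1 ?_ ⟨hxC, hxC'⟩⟩⟩
      exact fun he => hC'.2 (he ▸ rfl)
    have := (hC n C hCF).2.2 a haC b hbC
    linarith
  have h2 := fun A : 𝒜 => key A.1 (h𝒜 A.1 A.2).1 (h𝒜 A.1 A.2).2
  choose p hp using h2
  have hLc' : Countable (⋃ n, K n) := hLc.to_subtype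
  refine Set.countable_coe_iff.1 (Function.Injective.countable
    (f := fun A : 𝒜 => (⟨p A, (hp A).2⟩ : (⋃ n, K n : Set Y))) ?_)
  intro A A' hAA'
  have e : p A = p A' := congrArg Subtype.val hAA'
  by_contra hne
  have h3 := hd A.2 A'.2 (fun h => hne (Subtype.ext h))
  refine Set.disjoint_left.1 h3 (hp A).1 ?_
  show p A ∈ A'.1
  rw [e]; exact (hp A').1

end Pool.Agent.Helper535.SG
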