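import Pool.Agent.Helper535.SG.Defs

set_option autoImplicit false

namespace Pool.Agent.Helper535.SG
open Set Topology


theorem cp_loc (Y : Type) [MetricSpace Y] (h : CP Y) : LocallyConnectedSpace Y := by
  refine locallyConnectedSpace_of_connected_bases (fun _ s => s)
    (fun x s => s ∈ 𝓝 x ∧ IsPreconnected s) ?_ (fun x s hs => hs.2)
  intro x
  refine Filter.hasBasis_self.2 ?_
  intro t ht
  obtain ⟨ε, hε, hεt⟩ := Metric.mem_nhds_iff.1 ht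
  obtain ⟨F, hF, hU, hC, -⟩ := h ε hε
  refine ⟨⋃₀ {C | C ∈ F ∧ x ∈ C}, ?_, ?_, ?_⟩
  · have hcl : IsClosed (⋃₀ {C | C ∈ F ∧ x ∉ C}) := by
      rw [sUnion_eq_biUnion]
      have hfin : {C | C ∈ F ∧ x ∉ C}.Finite := hF.subset (fun C hC' => hC'.1)
      exact hfin.isClosed_biUnion (fun C hC' => (hC C hC'.1).1)
    have h1 : (⋃₀ {C | C ∈ F ∧ x ∉ C})ᶜ ∈ 𝓝 x :=
      hcl.isOpen_compl.mem_nhds (by rintro ⟨C, hC1, hC2⟩; exact hC1.2 hC2)
    filter_upwards [h1] with y hy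
    have h2 : y ∈ ⋃₀ F := by rw [hU]; trivial
    obtain ⟨C, hCF, hyC⟩ := h2
    by_cases hx : x ∈ C
    · exact ⟨C, ⟨hCF, hx⟩, hyC⟩
    · exact absurd ⟨C, ⟨hCF, hx⟩, hyC⟩ hy
  · exact isPreconnected_sUnion x _ (fun s hs => hs.2) (fun s hs => (hC s hs.1).2.1)
  · rintro y ⟨C, ⟨hCF, hx⟩, hyC⟩
    exact hεt (Metric.mem_ball.2 ((hC C hCF).2.2 y hyC x hx))

end Pool.Agent.Helper535.SG
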