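import Pool.Agent.Helper535.SG.Defs

set_option autoImplicit false

namespace Pool.Agent.Helper535.SG
open Set Topology


theorem cp_reg (Y : Type) [MetricSpace Y] (h : CP Y) (x : Y) (V : Set Y) (hV : V ∈ 𝓝 x) :
    ∃ U : Set Y, IsOpen U ∧ x ∈ U ∧ U ⊆ V ∧ (frontier U).Finite := by
  obtain ⟨ε, hε, hball⟩ := Metric.mem_nhds_iff.mp hV
  obtain ⟨F, hF, hcov, hC, K, hK, hFK⟩ := h ε hε
  have hcl : ∀ P : Set Y → Prop, IsClosed (⋃₀ {C | C ∈ F ∧ P C}) := by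
    intro P
    rw [Set.sUnion_eq_biUnion]
    apply Set.Finite.isClosed_biUnion (hF.subset (fun C hC => hC.1))
    intro C hCF
    exact (hC C hCF.1).1
  have hB := hcl (fun C => x ∉ C)
  have hN := hcl (fun C => x ∈ C)
  have hUN : (⋃₀ {C | C ∈ F ∧ x ∉ C})ᶜ ⊆ ⋃₀ {C | C ∈ F ∧ x ∈ C} := by
    intro y hy
    have hy2 : y ∈ ⋃₀ F := by rw [hcov]; trivial
    obtain ⟨C, hCF, hyC⟩ := hy2
    refine ⟨C, ⟨hCF, ?_⟩, hyC⟩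
    by_contra hx
    exact hy ⟨C, ⟨hCF, hx⟩, hyC⟩
  have hopen : IsOpen (⋃₀ {C | C ∈ F ∧ x ∉ C})ᶜ := hB.isOpen_compl
  refine ⟨(⋃₀ {C | C ∈ F ∧ x ∉ C})ᶜ, hopen, ?_, ?_, ?_⟩
  · rintro ⟨C, ⟨_, hx⟩, hxC⟩
    exact hx hxC
  · intro y hy
    obtain ⟨C, ⟨hCF, hxC⟩, hyC⟩ := hUN hy
    apply hball
    rw [Metric.mem_ball]
    exact (hC C hCF).2.2 y hyC x hxC
  · apply hK.subset
    intro y hy
    rw [hopen.frontier_eq] at hy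
    obtain ⟨hy1, hy2⟩ := hy
    have hyN : y ∈ ⋃₀ {C | C ∈ F ∧ x ∈ C} := closure_minimal hUN hN hy1
    have hyB : y ∈ ⋃₀ {C | C ∈ F ∧ x ∉ C} := by
      by_contra hh
      exact hy2 hh
    obtain ⟨C, ⟨hCF, hxC⟩, hyC⟩ := hyN
    obtain ⟨C', ⟨hCF', hxC'⟩, hyC'⟩ := hyB
    refine hFK C hCF C' hCF' ?_ ⟨hyC, hyC'⟩
    intro he
    rw [he] at hxC
    exact hxC' hxC

end Pool.Agent.Helper535.SG
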