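import Pool.Agent.Helper535.SG.Defs

set_option autoImplicit false

namespace Pool.Agent.Helper535.SG
open Set Topology


theorem e_mono (n : ℕ) : E n ⊆ E (n + 1) := by
  induction n with
  | zero =>
    rintro ⟨x, y⟩ hz
    have hz' : ((x, y) : ℝ × ℝ) ∈ B := hz
    obtain ⟨⟨h1, h2, h3⟩, h4⟩ := hz'
    simp only at h1 h2 h3 h4
    have mk : ∀ (i : Fin 3) (a b : ℝ), 0 ≤ a → 0 ≤ b → a + b ≤ 1 → (a = 0 ∨ b = 0 ∨ a + b = 1) →
        S i (a, b) = (x, y) → ((x, y) : ℝ × ℝ) ∈ E (0 + 1) := by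
      intro i a b ha hb hab hor he
      have : ((x, y) : ℝ × ℝ) ∈ ⋃ i : Fin 3, S i '' E 0 :=
        mem_iUnion.mpr ⟨i, (a, b), ⟨⟨ha, hb, hab⟩, hor⟩, he⟩
      exact this
    rcases h4 with h4 | h4 | h4
    · subst h4
      rcases le_total y (1 / 2) with hy | hy
      · refine mk 0 0 (2 * y) le_rfl (by linarith) (by linarith) (Or.inl rfl) ?_
        simp [S, v]
      · refine mk 2 0 (2 * y - 1) le_rfl (by linarith) (by linarith) (Or.inl rfl) ?_
        simp [S, v]
    · subst h4
      rcases le_total x (1 / 2) with hx | hx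
      · refine mk 0 (2 * x) 0 (by linarith) le_rfl (by linarith) (Or.inr (Or.inl rfl)) ?_
        simp [S, v]
      · refine mk 1 (2 * x - 1) 0 (by linarith) le_rfl (by linarith) (Or.inr (Or.inl rfl)) ?_
        simp [S, v]
    · rcases le_total x (1 / 2) with hx | hx
      · refine mk 2 (2 * x) (2 * y - 1) (by linarith) (by linarith) (by linarith)
          (Or.inr (Or.inr (by linarith))) ?_
        simp [S, v]
      · refine mk 1 (2 * x - 1) (2 * y) (by linarith) (by linarith) (by linarith)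
          (Or.inr (Or.inr (by linarith))) ?_
        simp [S, v]
  | succ n ih =>
    intro z hz
    have hz' : z ∈ ⋃ i : Fin 3, S i '' E n := hz
    have : z ∈ ⋃ i : Fin 3, S i '' E (n + 1) := by
      rw [mem_iUnion] at hz' ⊢
      obtain ⟨i, w, hw, rfl⟩ := hz'
      exact ⟨i, w, ih hw, rfl⟩
    exact this

end Pool.Agent.Helper535.SG
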