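import Pool.Agent.Helper535.SG.Defs

set_option autoImplicit false

namespace Pool.Agent.Helper535.SG
open Set Topology


theorem gconn_B : IsPreconnected B := by
  have hB : B = ({z : ℝ × ℝ | z.1 = 0 ∧ 0 ≤ z.2 ∧ z.2 ≤ 1} ∪
      {z : ℝ × ℝ | z.2 = 0 ∧ 0 ≤ z.1 ∧ z.1 ≤ 1}) ∪ {z : ℝ × ℝ | z.1 + z.2 = 1 ∧ 0 ≤ z.1 ∧ 0 ≤ z.2} := by
    ext z
    constructor
    · rintro ⟨⟨h1, h2, h3⟩, h4⟩
      rcases h4 with h4 | h4 | h4
      · exact Or.inl (Or.inl ⟨h4, h2, by linarith⟩)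
      · exact Or.inl (Or.inr ⟨h4, h1, by linarith⟩)
      · exact Or.inr ⟨h4, h1, h2⟩
    · rintro ((⟨h1, h2, h3⟩ | ⟨h1, h2, h3⟩) | ⟨h1, h2, h3⟩)
      · exact ⟨⟨by linarith, h2, by linarith⟩, Or.inl h1⟩
      · exact ⟨⟨h2, by linarith, by linarith⟩, Or.inr (Or.inl h1)⟩
      · exact ⟨⟨h2, h3, by linarith⟩, Or.inr (Or.inr h1)⟩
  have c0 : Convex ℝ {z : ℝ × ℝ | z.1 = 0 ∧ 0 ≤ z.2 ∧ z.2 ≤ 1} := by
    rintro x ⟨h1, h2, h3⟩ y ⟨g1, g2, g3⟩ a b ha hb hab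
    refine ⟨?_, ?_, ?_⟩
    · show a * x.1 + b * y.1 = 0
      rw [h1, g1]
      ring
    · show 0 ≤ a * x.2 + b * y.2
      positivity
    · show a * x.2 + b * y.2 ≤ 1
      nlinarith
  have c1 : Convex ℝ {z : ℝ × ℝ | z.2 = 0 ∧ 0 ≤ z.1 ∧ z.1 ≤ 1} := by
    rintro x ⟨h1, h2, h3⟩ y ⟨g1, g2, g3⟩ a b ha hb hab
    refine ⟨?_, ?_, ?_⟩
    · show a * x.2 + b * y.2 = 0
      rw [h1, g1]
      ring
    · show 0 ≤ a * x.1 + b * y.1
      positivity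
    · show a * x.1 + b * y.1 ≤ 1
      nlinarith
  have c2 : Convex ℝ {z : ℝ × ℝ | z.1 + z.2 = 1 ∧ 0 ≤ z.1 ∧ 0 ≤ z.2} := by
    rintro x ⟨h1, h2, h3⟩ y ⟨g1, g2, g3⟩ a b ha hb hab
    refine ⟨?_, ?_, ?_⟩
    · show (a * x.1 + b * y.1) + (a * x.2 + b * y.2) = 1
      have e : (a * x.1 + b * y.1) + (a * x.2 + b * y.2) = a * (x.1 + x.2) + b * (y.1 + y.2) := by ring
      rw [e, h1, g1]
      linarith
    · show 0 ≤ a * x.1 + b * y.1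
      positivity
    · show 0 ≤ a * x.2 + b * y.2
      positivity
  rw [hB]
  refine IsPreconnected.union ((1 : ℝ), (0 : ℝ)) (Or.inr ?_) ?_
    (IsPreconnected.union ((0 : ℝ), (0 : ℝ)) ?_ ?_ c0.isPreconnected c1.isPreconnected)
    c2.isPreconnected
  · exact ⟨rfl, by norm_num, le_rfl⟩
  · exact ⟨by norm_num, by norm_num, by norm_num⟩
  · exact ⟨rfl, le_rfl, by norm_num⟩
  · exact ⟨rfl, le_rfl, by norm_num⟩

theorem gconn_S (i : Fin 3) : Continuous (S i) := by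
  unfold S
  fun_prop

theorem gconn_E (n : ℕ) : IsPreconnected (E n) ∧ ((0 : ℝ), (0 : ℝ)) ∈ E n ∧ ((1 : ℝ), (0 : ℝ)) ∈ E n ∧
    ((0 : ℝ), (1 : ℝ)) ∈ E n := by
  induction n with
  | zero =>
    refine ⟨gconn_B, ⟨⟨le_rfl, le_rfl, by norm_num⟩, Or.inl rfl⟩,
      ⟨⟨by norm_num, le_rfl, by norm_num⟩, Or.inr (Or.inl rfl)⟩,
      ⟨⟨le_rfl, by norm_num, by norm_num⟩, Or.inl rfl⟩⟩
  | succ n ih =>
    obtain ⟨hc, h00, h10, h01⟩ := ih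
    have hE : E (n + 1) = (S 0 '' E n ∪ S 1 '' E n) ∪ S 2 '' E n := by
      ext z
      show z ∈ (⋃ i : Fin 3, S i '' E n) ↔ _
      rw [mem_iUnion]
      constructor
      · rintro ⟨i, hi⟩
        fin_cases i
        · exact Or.inl (Or.inl hi)
        · exact Or.inl (Or.inr hi)
        · exact Or.inr hi
      · rintro ((h | h) | h)
        · exact ⟨0, h⟩
        · exact ⟨1, h⟩
        · exact ⟨2, h⟩
    rw [hE]
    refine ⟨?_, ?_, ?_, ?_⟩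
    · refine IsPreconnected.union ((0 : ℝ), (1 / 2 : ℝ)) (Or.inl ?_) ?_
        (IsPreconnected.union ((1 / 2 : ℝ), (0 : ℝ)) ?_ ?_
          (hc.image _ (gconn_S 0).continuousOn) (hc.image _ (gconn_S 1).continuousOn))
        (hc.image _ (gconn_S 2).continuousOn)
      · exact ⟨_, h01, by simp [S, v]⟩
      · exact ⟨_, h00, by simp [S, v]⟩
      · exact ⟨_, h10, by simp [S, v]⟩
      · exact ⟨_, h00, by simp [S, v]⟩
    · exact Or.inl (Or.inl ⟨_, h00, by simp [S, v]⟩)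
    · exact Or.inl (Or.inr ⟨_, h10, by simp [S, v]⟩)
    · exact Or.inr ⟨_, h01, by simp [S, v]⟩

theorem g_conn : IsConnected G := by
  unfold G
  refine ⟨⟨((0 : ℝ), (0 : ℝ)), subset_closure (mem_iUnion.2 ⟨0, (gconn_E 0).2.1⟩)⟩, ?_⟩
  apply IsPreconnected.closure
  apply isPreconnected_iUnion
  · exact ⟨((0 : ℝ), (0 : ℝ)), mem_iInter.2 fun n => (gconn_E n).2.1⟩
  · intro n
    exact (gconn_E n).1

end Pool.Agent.Helper535.SG
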