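import Pool.Agent.Helper535.SG.Defs

set_option autoImplicit false

namespace Pool.Agent.Helper535.SG
open Set Topology


theorem g_sub_closed : IsClosed T := by
  have h1 : IsClosed {z : ℝ × ℝ | 0 ≤ z.1} := isClosed_le continuous_const continuous_fst
  have h2 : IsClosed {z : ℝ × ℝ | 0 ≤ z.2} := isClosed_le continuous_const continuous_snd
  have h3 : IsClosed {z : ℝ × ℝ | z.1 + z.2 ≤ 1} :=
    isClosed_le (continuous_fst.add continuous_snd) continuous_const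
  have h4 : T = {z : ℝ × ℝ | 0 ≤ z.1} ∩ ({z : ℝ × ℝ | 0 ≤ z.2} ∩ {z : ℝ × ℝ | z.1 + z.2 ≤ 1}) := by
    ext z
    rfl
  rw [h4]
  exact h1.inter (h2.inter h3)

theorem g_sub_compact : IsCompact T := by
  refine IsCompact.of_isClosed_subset (isCompact_Icc (a := ((0:ℝ), (0:ℝ))) (b := ((1:ℝ), (1:ℝ))))
    g_sub_closed ?_
  intro z hz
  obtain ⟨h1, h2, h3⟩ := hz
  refine ⟨⟨h1, h2⟩, ⟨?_, ?_⟩⟩
  · show z.1 ≤ 1
    linarith
  · show z.2 ≤ 1
    linarith

theorem g_sub_maps (i : Fin 3) (z : ℝ × ℝ) (hz : z ∈ T) : S i z ∈ T := by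
  obtain ⟨h1, h2, h3⟩ := hz
  fin_cases i
  · refine ⟨?_, ?_, ?_⟩ <;> simp [S, v] <;> linarith
  · refine ⟨?_, ?_, ?_⟩ <;> simp [S, v] <;> linarith
  · refine ⟨?_, ?_, ?_⟩ <;> simp [S, v] <;> linarith

theorem g_sub_E : ∀ n, E n ⊆ T := by
  intro n
  induction n with
  | zero => intro z hz; exact hz.1
  | succ n ih =>
    intro z hz
    have hz' : z ∈ ⋃ i : Fin 3, S i '' E n := hz
    rw [Set.mem_iUnion] at hz'
    obtain ⟨i, w, hw, rfl⟩ := hz'
    exact g_sub_maps i w (ih hw)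

theorem g_sub : G ⊆ T ∧ IsCompact G ∧ (∀ n, E n ⊆ G) := by
  have h1 : G ⊆ T := by
    refine closure_minimal ?_ g_sub_closed
    exact Set.iUnion_subset g_sub_E
  refine ⟨h1, IsCompact.of_isClosed_subset g_sub_compact isClosed_closure h1, ?_⟩
  intro n
  exact (Set.subset_iUnion E n).trans subset_closure

end Pool.Agent.Helper535.SG
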