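import Pool.Agent.Helper535.SG.Defs

set_option autoImplicit false

namespace Pool.Agent.Helper535.SG
open Set Topology


theorem j_finite (n : ℕ) : (J n).Finite := by
  induction n with
  | zero => exact Set.finite_empty
  | succ n ih =>
    show (({(1/2, 0), (0, 1/2), (1/2, 1/2)} : Set (ℝ × ℝ)) ∪ ⋃ i : Fin 3, S i '' J n).Finite
    exact (Set.toFinite _).union (Set.finite_iUnion fun i => ih.image _)

end Pool.Agent.Helper535.SG
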