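import Pool.Agent.Helper535.SG.Defs

set_option autoImplicit false

namespace Pool.Agent.Helper535.SG
open Set Topology


theorem s_dist (i : Fin 3) (x y : ℝ × ℝ) : dist (S i x) (S i y) = dist x y / 2 := by
  rw [Prod.dist_eq, Prod.dist_eq, Real.dist_eq, Real.dist_eq, Real.dist_eq, Real.dist_eq]
  have h1 : (S i x).1 - (S i y).1 = (x.1 - y.1) / 2 := by simp only [S]; ring
  have h2 : (S i x).2 - (S i y).2 = (x.2 - y.2) / 2 := by simp only [S]; ring
  rw [h1, h2, abs_div, abs_div, abs_of_pos (by norm_num : (0:ℝ) < 2),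
    max_div_div_right (by norm_num : (0:ℝ) ≤ 2)]

end Pool.Agent.Helper535.SG
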