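import Pool.Agent.Helper535.SG.Defs
import Pool.Agent.Helper535.SG.P_s_dist

set_option autoImplicit false

namespace Pool.Agent.Helper535.SG
open Set Topology


theorem w_cont (w : List (Fin 3)) : Continuous (W w) ∧ Function.Injective (W w) ∧
    ∀ x y, dist (W w x) (W w y) = dist x y / 2 ^ w.length := by
  have hd : ∀ x y, dist (W w x) (W w y) = dist x y / 2 ^ w.length := by
    induction w with
    | nil => intro x y; simp [W]
    | cons i w ih =>
      intro x y
      have h1 : W (i :: w) x = S i (W w x) := rfl
      have h2 : W (i :: w) y = S i (W w y) := rfl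
      rw [h1, h2, s_dist, ih, List.length_cons, pow_succ, div_div]
  refine ⟨?_, ?_, hd⟩
  · rw [Metric.continuous_iff]
    intro b ε hε
    refine ⟨ε, hε, fun a ha => ?_⟩
    rw [hd]
    have h1 : (1 : ℝ) ≤ 2 ^ w.length := one_le_pow₀ (by norm_num)
    calc dist a b / 2 ^ w.length ≤ dist a b := div_le_self dist_nonneg h1
      _ < ε := ha
  · intro x y hxy
    have h1 := hd x y
    rw [hxy, dist_self] at h1
    have h2 : (0 : ℝ) < 2 ^ w.length := by positivity
    have h3 : dist x y = 0 := by
      rcases div_eq_zero_iff.1 h1.symm with h | h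
      · exact h
      · exact absurd h h2.ne'
    exact dist_eq_zero.1 h3

end Pool.Agent.Helper535.SG
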