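import Pool.Agent.Helper535.SG.Defs
import Pool.Agent.Helper535.SG.P_e_mono
import Pool.Agent.Helper535.SG.P_g_sub

set_option autoImplicit false

namespace Pool.Agent.Helper535.SG
open Set Topology


theorem S_cont (i : Fin 3) : Continuous (S i) := by
  unfold S
  fun_prop

theorem g_eq : G = ⋃ i : Fin 3, S i '' G := by
  have hX : (⋃ n, E n) = ⋃ i : Fin 3, S i '' (⋃ n, E n) := by
    apply Subset.antisymm
    · intro x hx
      obtain ⟨n, hn⟩ := mem_iUnion.1 hx
      have h1 : x ∈ ⋃ i : Fin 3, S i '' E n := e_mono n hn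
      obtain ⟨i, hi⟩ := mem_iUnion.1 h1
      exact mem_iUnion.2 ⟨i, image_mono (subset_iUnion E n) hi⟩
    · intro x hx
      obtain ⟨i, hi⟩ := mem_iUnion.1 hx
      obtain ⟨y, hy, rfl⟩ := hi
      obtain ⟨n, hn⟩ := mem_iUnion.1 hy
      refine mem_iUnion.2 ⟨n + 1, ?_⟩
      show S i y ∈ ⋃ i : Fin 3, S i '' E n
      exact mem_iUnion.2 ⟨i, y, hn, rfl⟩
  have hcl : ∀ i : Fin 3, closure (S i '' (⋃ n, E n)) = S i '' G := by
    intro i
    apply Subset.antisymm
    · refine closure_minimal (image_mono subset_closure) ?_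
      exact (g_sub.2.1.image (S_cont i)).isClosed
    · exact image_closure_subset_closure_image (S_cont i)
  calc G = closure (⋃ n, E n) := rfl
    _ = closure (⋃ i : Fin 3, S i '' (⋃ n, E n)) := by rw [← hX]
    _ = ⋃ i : Fin 3, closure (S i '' (⋃ n, E n)) := closure_iUnion_of_finite _
    _ = ⋃ i : Fin 3, S i '' G := by simp_rw [hcl]

end Pool.Agent.Helper535.SG
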