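import Pool.Agent.Helper535.SG.Defs
import Pool.Agent.Helper535.SG.P_g_eq

set_option autoImplicit false

namespace Pool.Agent.Helper535.SG
open Set Topology


theorem w_cover (n : ℕ) : G = ⋃ w ∈ {w : List (Fin 3) | w.length = n}, W w '' G := by
  induction n with
  | zero =>
    ext z
    constructor
    · intro hz
      refine mem_iUnion₂.mpr ⟨[], rfl, z, hz, rfl⟩
    · intro hz
      obtain ⟨w, hw, y, hy, rfl⟩ := mem_iUnion₂.mp hz
      have hw' : w = [] := List.length_eq_zero_iff.mp hw
      subst hw'
      exact hy
  | succ n ih =>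
    ext z
    constructor
    · intro hz
      rw [g_eq] at hz
      obtain ⟨i, y, hy, rfl⟩ := mem_iUnion.mp hz
      rw [ih] at hy
      obtain ⟨w, hw, x, hx, rfl⟩ := mem_iUnion₂.mp hy
      refine mem_iUnion₂.mpr ⟨i :: w, ?_, x, hx, rfl⟩
      have hw' : w.length = n := hw
      show (i :: w).length = n + 1
      rw [List.length_cons, hw']
    · intro hz
      obtain ⟨w, hw, x, hx, rfl⟩ := mem_iUnion₂.mp hz
      have hw' : w.length = n + 1 := hw
      cases w with
      | nil => simp at hw'
      | cons i w =>
        have hw2 : w.length = n := by simpa using hw'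
        have hy : W w x ∈ G := by
          rw [ih]
          exact mem_iUnion₂.mpr ⟨w, hw2, x, hx, rfl⟩
        rw [g_eq]
        exact mem_iUnion.mpr ⟨i, W w x, hy, rfl⟩

end Pool.Agent.Helper535.SG
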