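import Pool.Agent.Helper535.SG.Defs
import Pool.Agent.Helper535.SG.P_s_dist
import Pool.Agent.Helper535.SG.P_g_sub
import Pool.Agent.Helper535.SG.P_w_cover

set_option autoImplicit false

namespace Pool.Agent.Helper535.SG
open Set Topology


theorem w_inter (n : ℕ) (w w' : List (Fin 3)) (hw : w.length = n) (hw' : w'.length = n)
    (h : w ≠ w') : (W w '' G) ∩ (W w' '' G) ⊆ J n := by
  have hsub : ∀ u : List (Fin 3), W u '' G ⊆ G := by
    intro u
    have h1 := w_cover u.length
    intro p hp
    rw [h1]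
    exact Set.mem_biUnion (show u ∈ {w : List (Fin 3) | w.length = u.length} from rfl) hp
  have hinj : ∀ i, Function.Injective (S i) := by
    intro i x y hxy
    have h1 := s_dist i x y
    rw [hxy, dist_self] at h1
    exact dist_eq_zero.mp (by linarith)
  have hT : ∀ u : List (Fin 3), ∀ g ∈ G, W u g ∈ T := fun u g hg =>
    g_sub.1 (hsub u ⟨g, hg, rfl⟩)
  have key : ∀ i : Fin 3, i = 0 ∨ i = 1 ∨ i = 2 := by decide
  have v0 : v 0 = (0, 0) := rfl
  have v1 : v 1 = (1, 0) := rfl
  have v2 : v 2 = (0, 1) := rfl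
  have hjn : ∀ i j : Fin 3, i ≠ j → ∀ a ∈ T, ∀ b ∈ T, S j b = S i a →
      S i a ∈ ({(1/2, 0), (0, 1/2), (1/2, 1/2)} : Set (ℝ × ℝ)) := by
    rintro i j hij ⟨a1, a2⟩ ⟨ha1, ha2, ha3⟩ ⟨b1, b2⟩ ⟨hb1, hb2, hb3⟩ hab
    simp only [] at ha1 ha2 ha3 hb1 hb2 hb3
    rcases key i with rfl | rfl | rfl <;> rcases key j with rfl | rfl | rfl <;>
    first
    | exact absurd rfl hij
    | (simp only [S, v0, v1, v2, Prod.mk.injEq, Set.mem_insert_iff,
        Set.mem_singleton_iff] at hab ⊢
       obtain ⟨h1, h2⟩ := hab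
       first
       | (left; constructor <;> linarith)
       | (right; left; constructor <;> linarith)
       | (right; right; constructor <;> linarith))
  induction n generalizing w w' with
  | zero =>
    rw [List.length_eq_zero_iff] at hw hw'
    exact absurd (hw.trans hw'.symm) h
  | succ n ih =>
    match w, w', hw, hw', h with
    | i :: u, j :: u', hw, hw', h =>
      have hu : u.length = n := by simpa using hw
      have hu' : u'.length = n := by simpa using hw'
      rintro p ⟨⟨g, hg, rfl⟩, ⟨g', hg', hgg⟩⟩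
      have hgg' : S j (W u' g') = S i (W u g) := hgg
      show S i (W u g) ∈ ({(1/2, 0), (0, 1/2), (1/2, 1/2)} : Set (ℝ × ℝ)) ∪ ⋃ i : Fin 3, S i '' J n
      by_cases hij : i = j
      · subst hij
        have huu : u ≠ u' := fun h' => h (by rw [h'])
        right
        have h1 : W u' g' = W u g := hinj i hgg'
        have h2 : W u g ∈ J n := ih u u' hu hu' huu ⟨⟨g, hg, rfl⟩, ⟨g', hg', h1⟩⟩
        exact Set.mem_iUnion.mpr ⟨i, _, h2, rfl⟩
      · left
        exact hjn i j hij _ (hT u g hg) _ (hT u' g' hg') hgg'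

end Pool.Agent.Helper535.SG
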