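import Pool.Agent.Helper535.SG.Defs
import Pool.Agent.Helper535.SG.P_g_sub
import Pool.Agent.Helper535.SG.P_g_conn
import Pool.Agent.Helper535.SG.P_w_cont
import Pool.Agent.Helper535.SG.P_w_cover
import Pool.Agent.Helper535.SG.P_w_inter
import Pool.Agent.Helper535.SG.P_j_finite

set_option autoImplicit false

namespace Pool.Agent.Helper535.SG
open Set Topology


theorem g_cp_dist {x y : ℝ × ℝ} (hx : x ∈ T) (hy : y ∈ T) : dist x y ≤ 1 := by
  obtain ⟨a1, a2, a3⟩ := hx
  obtain ⟨b1, b2, b3⟩ := hy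
  rw [Prod.dist_eq, max_le_iff, Real.dist_eq, Real.dist_eq, abs_le, abs_le]
  exact ⟨⟨by linarith, by linarith⟩, ⟨by linarith, by linarith⟩⟩

theorem g_cp : CP G := by
  intro ε hε
  obtain ⟨n, hn⟩ := exists_pow_lt_of_lt_one hε (by norm_num : (1 / 2 : ℝ) < 1)
  have hfin : {w : List (Fin 3) | w.length = n}.Finite := List.finite_length_eq (Fin 3) n
  let C : List (Fin 3) → Set G := fun w => (Subtype.val : G → ℝ × ℝ) ⁻¹' (W w '' G)
  have hsub : ∀ w : List (Fin 3), w.length = n → W w '' G ⊆ G := by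
    intro w hw y hy
    rw [w_cover n]
    exact Set.mem_biUnion (show w ∈ {w : List (Fin 3) | w.length = n} from hw) hy
  refine ⟨C '' {w : List (Fin 3) | w.length = n}, hfin.image C, ?_, ?_,
    (Subtype.val : G → ℝ × ℝ) ⁻¹' J n, (j_finite n).preimage Subtype.val_injective.injOn, ?_⟩
  · apply Set.eq_univ_of_forall
    intro y
    have hy : (y : ℝ × ℝ) ∈ ⋃ w ∈ {w : List (Fin 3) | w.length = n}, W w '' G := by
      rw [← w_cover n]
      exact y.2
    obtain ⟨w, hw, hyw⟩ := Set.mem_iUnion₂.1 hy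
    exact ⟨C w, ⟨w, hw, rfl⟩, hyw⟩
  · rintro _ ⟨w, hw, rfl⟩
    refine ⟨?_, ?_, ?_⟩
    · exact (g_sub.2.1.image (w_cont w).1).isClosed.preimage continuous_subtype_val
    · apply (Topology.IsInducing.subtypeVal.isPreconnected_image).1
      have h1 : (Subtype.val : G → ℝ × ℝ) '' (C w) = W w '' G := by
        show (Subtype.val : G → ℝ × ℝ) '' ((Subtype.val : G → ℝ × ℝ) ⁻¹' (W w '' G)) = _
        rw [Subtype.image_preimage_coe]
        exact Set.inter_eq_right.2 (hsub w hw)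
      rw [h1]
      exact (g_conn.image _ (w_cont w).1.continuousOn).isPreconnected
    · rintro a ⟨x, hx, hxa⟩ b ⟨y, hy, hyb⟩
      rw [Subtype.dist_eq, ← hxa, ← hyb, (w_cont w).2.2]
      have hw' : w.length = n := hw
      rw [hw']
      have h1 : dist x y ≤ 1 := g_cp_dist (g_sub.1 hx) (g_sub.1 hy)
      have h2 : dist x y / 2 ^ n ≤ (1 / 2 : ℝ) ^ n := by
        rw [div_pow, one_pow]
        exact div_le_div_of_nonneg_right h1 (by positivity)
      exact h2.trans_lt hn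
  · rintro _ ⟨w, hw, rfl⟩ _ ⟨w', hw', rfl⟩ hne y ⟨hy, hy'⟩
    exact w_inter n w w' hw hw' (fun h => hne (by rw [h])) ⟨hy, hy'⟩

end Pool.Agent.Helper535.SG
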