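import Pool.Agent.Helper535.SG.Defs
import Pool.Agent.Helper535.SG.P_g_sub
import Pool.Agent.Helper535.SG.P_w_cont
import Pool.Agent.Helper535.SG.P_w_cover
import Pool.Agent.Helper535.SG.P_circle_B

set_option autoImplicit false

namespace Pool.Agent.Helper535.SG
open Set Topology


theorem g_scc (V : Set G) (hV : IsOpen V) (hVn : V.Nonempty) :
    ∃ g : Circle → G, Continuous g ∧ Function.Injective g ∧ Set.range g ⊆ V := by
  obtain ⟨x, hx⟩ := hVn
  obtain ⟨ε, hε, hball⟩ := Metric.isOpen_iff.1 hV x hx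
  obtain ⟨n, hn⟩ := exists_pow_lt_of_lt_one hε (by norm_num : (1 / 2 : ℝ) < 1)
  have hxG : (x : ℝ × ℝ) ∈ ⋃ w ∈ {w : List (Fin 3) | w.length = n}, W w '' G := by
    rw [← w_cover n]; exact x.2
  rw [mem_iUnion₂] at hxG
  obtain ⟨w, hw, y, hyG, hy⟩ := hxG
  obtain ⟨g0, hc, hi, hr⟩ := circle_B
  have hBG : ∀ t, g0 t ∈ G := fun t => g_sub.2.2 0 (hr (mem_range_self t))
  have hmem : ∀ t, W w (g0 t) ∈ G := by
    intro t
    have : W w (g0 t) ∈ ⋃ w ∈ {w : List (Fin 3) | w.length = n}, W w '' G :=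
      mem_biUnion hw ⟨g0 t, hBG t, rfl⟩
    rw [← w_cover n] at this
    exact this
  refine ⟨fun t => ⟨W w (g0 t), hmem t⟩, ((w_cont w).1.comp hc).subtype_mk _, ?_, ?_⟩
  · intro a b hab
    exact hi ((w_cont w).2.1 (congrArg Subtype.val hab))
  · rintro _ ⟨t, rfl⟩
    apply hball
    rw [Metric.mem_ball]
    show dist (W w (g0 t)) (x : ℝ × ℝ) < ε
    rw [← hy, (w_cont w).2.2, show w.length = n from hw]
    have h1 : dist (g0 t) y ≤ 1 := by
      obtain ⟨a1, a2, a3⟩ := g_sub.1 (hBG t)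
      obtain ⟨b1, b2, b3⟩ := g_sub.1 hyG
      rw [Prod.dist_eq]
      refine max_le ?_ ?_
      · rw [Real.dist_eq, abs_sub_le_iff]; constructor <;> linarith
      · rw [Real.dist_eq, abs_sub_le_iff]; constructor <;> linarith
    have h2 : (0 : ℝ) < 2 ^ n := by positivity
    calc dist (g0 t) y / 2 ^ n ≤ 1 / 2 ^ n := by gcongr
      _ = (1 / 2 : ℝ) ^ n := by rw [one_div_pow]
      _ < ε := hn
end Pool.Agent.Helper535.SG
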